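import Pool.Agent.H343.QF.StQ
import Pool.Graph.R_seed8.TH68.Wind

set_option autoImplicit false
set_option linter.unusedSectionVars false

/-! # MP_9a852a_al, R5: the windmill theorem for a system of axes -/

namespace Pool.Agent.H106.QF

open Pool.Agent.TH68 Pool.Agent.Helper97.Hyp Pool.Agent.H343.AN Pool.Agent.H343.QF

section

variable {Γ : Type} [Group Γ] {W : WNorm Γ} {𝒜 : Type} [MulAction Γ 𝒜] (Y : Sys Γ W 𝒜)

lemma mem_smul (γ : Γ) (A : 𝒜) (x : Pt W) : x ∈ Y.S (γ • A) ↔ γ⁻¹ • x ∈ Y.S A := by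
  constructor
  · intro h
    have h1 := Y.smul_mem γ⁻¹ _ _ h
    rwa [inv_smul_smul] at h1
  · intro h
    have h1 := Y.smul_mem γ _ _ h
    rwa [smul_inv_smul] at h1

lemma closer {A B : 𝒜} (hAB : A ≠ B) {p b : Pt W} (hb : b ∈ Y.S B)
    (hd : 10 * Y.θ < pd (Y.S A) p b) :
    Metric.infDist p (Y.S A) < Metric.infDist p (Y.S B) := by
  have hδ := Y.hδ
  have hθ := Y.hθ
  have h1 : Metric.infDist p (Y.S A) + 1 ≤ Metric.infDist p (Y.S B) := by
    rw [Metric.le_infDist (Y.Sne B)]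
    intro b₁ hb₁
    obtain ⟨p', hp'⟩ := Y.proj A p
    obtain ⟨b', hb'⟩ := Y.proj A b₁
    have h2 := pd_tri (Y.Sne A) p b₁ b
    have h3 := Y.small A B hAB b₁ hb₁ b hb
    have h4 := far_of_pd Y.hyp hp' hb' (by linarith)
    have h5 := Metric.infDist_le_dist_of_mem (x := p) hp'.1
    have h6 := dist_nonneg (x := b₁) (y := b')
    linarith
  linarith

lemma ball_fin (p : Pt W) (r : ℝ) : {x : Pt W | dist p x ≤ r}.Finite := by
  refine ((proper p r).image (fun γ : Γ => γ • p)).subset ?_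
  intro x hx
  obtain ⟨γ, hγ⟩ := smul_trans p x
  refine ⟨γ, ?_, hγ⟩
  show dist p (γ • p) ≤ r
  rw [hγ]
  exact hx

lemma fin_ax (hfin : ∀ x : Pt W, {A | x ∈ Y.S A}.Finite) (p q : Pt W) :
    {A | 10 * Y.θ < pd (Y.S A) p q}.Finite := by
  have hδ := Y.hδ
  have hθ := Y.hθ
  refine ((ball_fin p (dist p q)).biUnion (fun x _ => hfin x)).subset ?_
  intro A hA
  have hA' : 10 * Y.θ < pd (Y.S A) p q := hA
  obtain ⟨p', hp'⟩ := Y.proj A p
  obtain ⟨q', hq'⟩ := Y.proj A q
  have h4 := far_of_pd Y.hyp hp' hq' (by linarith)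
  have h6 := dist_nonneg (x := q) (y := q')
  refine Set.mem_biUnion (x := p') ?_ ?_
  · show dist p p' ≤ dist p q
    linarith
  · exact hp'.1

/-- the projection system of a system of axes -/
noncomputable def psys (hb : S_behr) (hfin : ∀ x : Pt W, {A | x ∈ Y.S A}.Finite) :
    ProjSys Γ 𝒜 (Pt W) where
  d A p q := pd (Y.S A) p q
  S := Y.S
  r p A := Metric.infDist p (Y.S A)
  θ := 10 * Y.θ
  θpos := by
    have hδ := Y.hδ
    have hθ := Y.hθ
    linarith
  symm A p q := pd_symm (Y.Sne A) p q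
  tri A p q s := pd_tri (Y.Sne A) p q s
  self A p := pd_self (Y.Sne A) p
  inv γ A p q := pd_smul (Y.Sne A) (mem_smul Y γ A) p q
  Sinv γ A p hp := Y.smul_mem γ A p hp
  Sne := Y.Sne
  proj A B p q hAB hp hq := by
    have hδ := Y.hδ
    have hθ := Y.hθ
    have := Y.small A B hAB p hp q hq
    linarith
  beh A B p a b hAB ha hb' := by
    have hδ := Y.hδ
    have hθ := Y.hθ
    rcases hb Y hAB p a ha b hb' with h | h
    · left; linarith
    · right; linarith
  closer A B p b hAB hb' hd := closer Y hAB hb' hd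
  fin := fin_ax Y hfin

end

/-- R5: the windmill theorem for a system of axes -/
theorem windgen : S_behr → S_windgen := by
  intro hb Γ _ W 𝒜 _ Y G ρ hfix hconj hfar hρ hfin n hn hn1 x
  have hδ := Y.hδ
  have hθ := Y.hθ
  let R : Spin (psys Y hb hfin) :=
    { G := G
      M := ρ - Y.θ
      hM := by
        show 100 * (10 * Y.θ) ≤ ρ - Y.θ
        linarith
      Gconj := fun γ A g hg => hconj γ A g hg
      Gfix := fun A g hg => hfix A g hg
      spin := by
        intro A g p hg hg1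
        show ρ - Y.θ ≤ pd (Y.S A) p (g • p)
        obtain ⟨p', hp'⟩ := Y.proj A p
        have hT : ∀ y, y ∈ Y.S A ↔ g⁻¹ • y ∈ Y.S A := by
          intro y
          have h1 := mem_smul Y g A y
          rwa [hfix A g hg] at h1
        have hq' : IsProj Y.θ (Y.S A) (g • p) (g • p') := hp'.smul hT
        have h1 := le_pd_of_proj hp' hq'
        have h2 := hfar A g hg hg1 p' hp'.1
        linarith }
  obtain ⟨A, r, hr, hr1, hd⟩ := R.swind x hn hn1
  refine ⟨A, r, hr, hr1, ?_⟩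
  have hd' : pd (Y.S A) (r • x) (n • x) ≤ 42 * (10 * Y.θ) := hd
  linarith

end Pool.Agent.H106.QF
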